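import Pool.Agent.Helper25_CON.Stmts

/-! # Module A_SPN (squad CON, MP_6d18f4_al) -/

set_option autoImplicit false

noncomputable section

namespace Pool.Agent.CON.H63

open Pool.Agent.H25Cong Pool.Agent.CON

variable {n : ℕ}

theorem val {Λ : Submodule ℤ (V n)} {b : Module.Basis (Fin (n + 1)) ℝ (V n)} {c : ℝ}
    (hb : ∀ i j, ∃ k : ℤ, B (b i) (b j) = c * k) (hΛ : Λ = Submodule.span ℤ (Set.range b))
    {x y : V n} (hx : x ∈ Λ) (hy : y ∈ Λ) : ∃ k : ℤ, B x y = c * k := by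
  subst hΛ
  induction hx using Submodule.span_induction with
  | mem x hx =>
    obtain ⟨i, rfl⟩ := hx
    induction hy using Submodule.span_induction with
    | mem y hy =>
      obtain ⟨j, rfl⟩ := hy
      exact hb i j
    | zero => exact ⟨0, by simp⟩
    | add y z _ _ h1 h2 =>
      obtain ⟨k1, h1⟩ := h1
      obtain ⟨k2, h2⟩ := h2
      exact ⟨k1 + k2, by rw [B_add_right, h1, h2]; push_cast; ring⟩
    | smul a y _ h1 =>
      obtain ⟨k1, h1⟩ := h1
      exact ⟨a * k1, by rw [← Int.cast_smul_eq_zsmul ℝ, B_smul_right, h1]; push_cast; ring⟩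
  | zero => exact ⟨0, by simp⟩
  | add y z _ _ h1 h2 =>
    obtain ⟨k1, h1⟩ := h1
    obtain ⟨k2, h2⟩ := h2
    exact ⟨k1 + k2, by rw [B_add_left, h1, h2]; push_cast; ring⟩
  | smul a y _ h1 =>
    obtain ⟨k1, h1⟩ := h1
    exact ⟨a * k1, by rw [← Int.cast_smul_eq_zsmul ℝ, B_smul_left, h1]; push_cast; ring⟩

theorem ep_neg : B (ep 0 : V n) (ep 0) < 0 := by
  rw [B_ep_zero]
  simp

theorem eq_zero_of_B {e : V n} (h : ∀ x, B x e = 0) : e = 0 := by
  have h0 : B e (ep 0) = 0 := by rw [B_comm]; exact h _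
  exact perp_eq_zero ep_neg h0 (h e)

theorem exists_ne {Λ : Submodule ℤ (V n)} {b : Module.Basis (Fin (n + 1)) ℝ (V n)}
    (hΛ : Λ = Submodule.span ℤ (Set.range b)) {e : V n} (he : e ≠ 0) :
    ∃ w ∈ Λ, B w e ≠ 0 := by
  by_contra hcon
  push Not at hcon
  apply he
  apply eq_zero_of_B
  intro x
  rw [← b.sum_repr x, B_sum_left]
  refine Finset.sum_eq_zero fun i _ => ?_
  rw [B_smul_left, hcon (b i) (by rw [hΛ]; exact Submodule.subset_span ⟨i, rfl⟩), mul_zero]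

/-- a common denominator on a basis is a common denominator on the lattice -/
theorem common {Λ : Submodule ℤ (V n)} {b : Module.Basis (Fin (n + 1)) ℝ (V n)}
    (hΛ : Λ = Submodule.span ℤ (Set.range b)) (f : V n →ₗ[ℝ] V n) (H : AddSubgroup (V n))
    (h : ∀ i, ∃ D : ℕ, 0 < D ∧ (D : ℝ) • f (b i) ∈ H) :
    ∃ D : ℕ, 0 < D ∧ ∀ x ∈ Λ, (D : ℝ) • f x ∈ H := by
  classical
  choose d hd0 hd using h
  refine ⟨∏ i, d i, Finset.prod_pos fun i _ => hd0 i, fun x hx => ?_⟩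
  subst hΛ
  induction hx using Submodule.span_induction with
  | mem x hx =>
    obtain ⟨i, rfl⟩ := hx
    have h1 : ((∏ i, d i : ℕ) : ℝ) • f (b i) =
        (∏ j ∈ Finset.univ.erase i, d j) • ((d i : ℝ) • f (b i)) := by
      rw [← Finset.prod_erase_mul _ _ (Finset.mem_univ i), ← Nat.cast_smul_eq_nsmul ℝ, smul_smul]
      push_cast
      rfl
    rw [h1]
    exact H.nsmul_mem (hd i) _
  | zero => rw [map_zero, smul_zero]; exact H.zero_mem
  | add x y _ _ h1 h2 => rw [map_add, smul_add]; exact H.add_mem h1 h2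
  | smul a x _ h1 =>
    have h2 : ((∏ i, d i : ℕ) : ℝ) • f (a • x) = a • (((∏ i, d i : ℕ) : ℝ) • f x) := by
      rw [← Int.cast_smul_eq_zsmul ℝ, ← Int.cast_smul_eq_zsmul ℝ, map_smul, smul_comm]
    rw [h2]
    exact H.zsmul_mem h1 _

/-- **A_SPN** -/
theorem a_spn : A_SPN := by
  rintro n Λ ⟨b, c, hc, hb, hΛ⟩ ⟨e, heΛ, he0, hee⟩
  set H := AddSubgroup.closure {e : V n | e ∈ Λ ∧ B e e = 0} with hH
  have hval : ∀ x ∈ Λ, ∀ y ∈ Λ, ∃ k : ℤ, B x y = c * k := fun x hx y hy => val hb hΛ hx hy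
  obtain ⟨w, hwΛ, hw⟩ := exists_ne hΛ he0
  -- vectors which are not orthogonal to `e`
  have key : ∀ x ∈ Λ, B x e ≠ 0 → ∃ D : ℕ, 0 < D ∧ (D : ℝ) • x ∈ H := by
    intro x hx hxe
    obtain ⟨k, hk⟩ := hval x hx x hx
    obtain ⟨l, hl⟩ := hval x hx e heΛ
    have hl0 : l ≠ 0 := by
      rintro rfl
      apply hxe
      rw [hl]; simp
    have hex : B e x = c * l := by rw [B_comm]; exact hl
    have h1 : k • e - (2 * l) • x ∈ Λ := Λ.sub_mem (Λ.smul_mem k heΛ) (Λ.smul_mem _ hx)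
    have h2 : B (k • e - (2 * l) • x) (k • e - (2 * l) • x) = 0 := by
      rw [← Int.cast_smul_eq_zsmul ℝ, ← Int.cast_smul_eq_zsmul ℝ]
      simp only [B_sub_left, B_sub_right, B_smul_left, B_smul_right, hee, hk, hl, hex]
      push_cast
      ring
    have h3 : k • e ∈ H := H.zsmul_mem (AddSubgroup.subset_closure ⟨heΛ, hee⟩) k
    have h4 : k • e - (2 * l) • x ∈ H := AddSubgroup.subset_closure ⟨h1, h2⟩
    have h5 : (2 * l) • x ∈ H := by
      have := H.sub_mem h3 h4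
      rwa [sub_sub_cancel] at this
    refine ⟨(2 * l).natAbs, Int.natAbs_pos.mpr (by omega), ?_⟩
    have h6 : (((2 * l).natAbs : ℕ) : ℝ) • x = (((2 * l).natAbs : ℕ) : ℤ) • x := by
      rw [← Int.cast_smul_eq_zsmul ℝ, Int.cast_natCast]
    rw [h6]
    rcases Int.natAbs_eq (2 * l) with h7 | h7
    · rw [← h7]; exact h5
    · have h8 : (((2 * l).natAbs : ℕ) : ℤ) = -(2 * l) := by omega
      rw [h8, neg_smul]
      exact H.neg_mem h5
  have all : ∀ x ∈ Λ, ∃ D : ℕ, 0 < D ∧ (D : ℝ) • x ∈ H := by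
    intro x hx
    by_cases h : B x e = 0
    · obtain ⟨D1, hD1, h1⟩ := key w hwΛ hw
      obtain ⟨D2, hD2, h2⟩ := key (x + w) (Λ.add_mem hx hwΛ) (by rw [B_add_left, h, zero_add]; exact hw)
      refine ⟨D1 * D2, Nat.mul_pos hD1 hD2, ?_⟩
      have h3 : ((D1 * D2 : ℕ) : ℝ) • x = D1 • ((D2 : ℝ) • (x + w)) - D2 • ((D1 : ℝ) • w) := by
        rw [← Nat.cast_smul_eq_nsmul ℝ, ← Nat.cast_smul_eq_nsmul ℝ, smul_smul, smul_smul]
        push_cast
        rw [smul_add, mul_comm (D2 : ℝ) D1]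
        abel
      rw [h3]
      exact H.sub_mem (H.nsmul_mem h2 _) (H.nsmul_mem h1 _)
    · exact key x hx h
  obtain ⟨D, hD, h⟩ := common hΛ LinearMap.id H
    (fun i => all (b i) (by rw [hΛ]; exact Submodule.subset_span ⟨i, rfl⟩))
  exact ⟨D, hD, fun x hx => h x hx⟩

end Pool.Agent.CON.H63

end
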