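import Pool.Agent.Helper63_CON.Spn

/-! # Module A_RAT (squad CON, MP_6d18f4_al) -/

set_option autoImplicit false

noncomputable section

namespace Pool.Agent.CON.H63

open Pool.Agent.H25Cong Pool.Agent.CON

variable {n : ℕ}

/-- two orthogonal isotropic vectors are proportional -/
theorem prop_iso {e g : V n} (he : e ≠ 0) (hee : B e e = 0) (hgg : B g g = 0)
    (heg : B e g = 0) : ∃ a : ℝ, g = a • e := by
  have h0 : e 0 ≠ 0 := by
    intro h
    apply he
    refine perp_eq_zero (v := ep 0) ep_neg ?_ hee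
    rw [B_ep_zero, h, neg_zero]
  refine ⟨g 0 / e 0, ?_⟩
  have hge : B g e = 0 := by rw [B_comm]; exact heg
  have h1 : g - (g 0 / e 0) • e = 0 := by
    refine perp_eq_zero (v := ep 0) ep_neg ?_ ?_
    · rw [B_ep_zero, Pi.sub_apply, Pi.smul_apply, smul_eq_mul]
      field_simp
      ring
    · simp only [B_sub_left, B_sub_right, B_smul_left, B_smul_right, hee, hgg, heg, hge]
      ring
  exact sub_eq_zero.mp h1

/-- the vectors with a multiple in `l Λ` -/
def ML (Λ : Submodule ℤ (V n)) (l : ℝ) : AddSubgroup (V n) where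
  carrier := {x | ∃ D : ℕ, 0 < D ∧ ∃ y ∈ Λ, (D : ℝ) • x = l • y}
  add_mem' := by
    rintro x x' ⟨D, hD, y, hy, h⟩ ⟨D', hD', y', hy', h'⟩
    refine ⟨D * D', Nat.mul_pos hD hD', D' • y + D • y',
      Λ.add_mem (Λ.nsmul_mem hy _) (Λ.nsmul_mem hy' _), ?_⟩
    push_cast
    rw [smul_add, smul_add, ← Nat.cast_smul_eq_nsmul ℝ, ← Nat.cast_smul_eq_nsmul ℝ,
      smul_comm l (D' : ℝ) y, smul_comm l (D : ℝ) y', ← h, ← h', smul_smul, smul_smul,
      mul_comm (D' : ℝ) D]
  zero_mem' := ⟨1, one_pos, 0, Λ.zero_mem, by simp⟩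
  neg_mem' := by
    rintro x ⟨D, hD, y, hy, h⟩
    exact ⟨D, hD, -y, Λ.neg_mem hy, by rw [smul_neg, smul_neg, h]⟩

theorem ML_div {Λ : Submodule ℤ (V n)} {l : ℝ} {x : V n} {D : ℕ} (hD : 0 < D)
    (h : (D : ℝ) • x ∈ ML Λ l) : x ∈ ML Λ l := by
  obtain ⟨D', hD', y, hy, h⟩ := h
  exact ⟨D' * D, Nat.mul_pos hD' hD, y, hy, by rw [← h, smul_smul]; push_cast; rfl⟩

theorem S_sum (b : Module.Basis (Fin (n + 1)) ℝ (V n)) {r : V n} (hr : 0 < B r r) :
    ∑ i, b.repr (S r (b i)) i = (n : ℝ) - 1 := by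
  have h1 : ∀ i, b.repr (S r (b i)) i = 1 - (2 / B r r) * (b.repr r i * B (b i) r) := by
    intro i
    rw [S_apply, map_sub, map_smul]
    simp only [Finsupp.sub_apply, Finsupp.smul_apply, smul_eq_mul, Module.Basis.repr_self,
      Finsupp.single_eq_same]
    ring
  rw [Finset.sum_congr rfl fun i _ => h1 i, Finset.sum_sub_distrib, ← Finset.mul_sum]
  have h2 : ∑ i, b.repr r i * B (b i) r = B r r := by
    conv_rhs => rw [← b.sum_repr r]
    rw [B_sum_left]
    refine Finset.sum_congr rfl fun i _ => ?_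
    rw [B_smul_left, b.sum_repr r]
  rw [h2]
  simp only [Finset.sum_const, Finset.card_univ, Fintype.card_fin, nsmul_eq_mul, mul_one]
  push_cast
  field_simp
  ring

/-- **A_RAT** -/
theorem a_rat (hSPN : A_SPN) : A_RAT := by
  rintro n Λ r hn hr hΛi hex hS
  obtain ⟨D₀, hD₀, hspn⟩ := hSPN n Λ hΛi hex
  obtain ⟨b, c, hc, hb, hΛ⟩ := hΛi
  obtain ⟨e0, he0Λ, he0, hee0⟩ := hex
  have hval : ∀ x ∈ Λ, ∀ y ∈ Λ, ∃ k : ℤ, B x y = c * k := fun x hx y hy => val hb hΛ hx hy
  have hbΛ : ∀ i, b i ∈ Λ := fun i => by rw [hΛ]; exact Submodule.subset_span ⟨i, rfl⟩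
  obtain ⟨c0, hc0, hc0Λ⟩ := hS e0 he0Λ he0 hee0
  -- products of two scalars are rational
  have prod : ∀ e ∈ Λ, ∀ g ∈ Λ, B e g ≠ 0 → ∀ ce cg : ℝ, ce • S r e ∈ Λ → cg • S r g ∈ Λ →
      ∃ q : ℚ, ce * cg = q := by
    intro e he g hg heg ce cg h1 h2
    obtain ⟨k, hk⟩ := hval _ h1 _ h2
    obtain ⟨k', hk'⟩ := hval _ he _ hg
    rw [B_smul_left, B_smul_right, S_isom] at hk
    refine ⟨(k : ℚ) / k', ?_⟩
    have h3 : (k' : ℝ) ≠ 0 := by
      intro h
      apply heg
      rw [hk', h, mul_zero]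
    rw [hk'] at hk
    push_cast
    rw [eq_div_iff h3]
    have h4 : c * (ce * cg * k' - k) = 0 := by linear_combination hk
    have h5 := (mul_eq_zero.mp h4).resolve_left hc.ne'
    linarith
  -- a third isotropic vector
  have third : ∀ e ∈ Λ, e ≠ 0 → B e e = 0 → ∃ g ∈ Λ, B g g = 0 ∧ B e g ≠ 0 ∧ B e0 g ≠ 0 := by
    intro e he hene hee
    by_contra hcon
    push Not at hcon
    have h1 : ∀ g ∈ AddSubgroup.closure {e : V n | e ∈ Λ ∧ B e e = 0},
        g ∈ Submodule.span ℝ {e, e0} := by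
      intro g hg
      induction hg using AddSubgroup.closure_induction with
      | mem g hg =>
        by_cases h : B e g = 0
        · obtain ⟨a, rfl⟩ := prop_iso hene hee hg.2 h
          exact Submodule.smul_mem _ _ (Submodule.subset_span (by simp))
        · obtain ⟨a, rfl⟩ := prop_iso he0 hee0 hg.2 (hcon g hg.1 hg.2 h)
          exact Submodule.smul_mem _ _ (Submodule.subset_span (by simp))
      | zero => exact Submodule.zero_mem _
      | add x y _ _ h1 h2 => exact Submodule.add_mem _ h1 h2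
      | neg x _ h1 => exact Submodule.neg_mem _ h1
    have h2 : ∀ i, b i ∈ Submodule.span ℝ {e, e0} := by
      intro i
      have h3 := h1 _ (hspn (b i) (hbΛ i))
      have h4 := Submodule.smul_mem (Submodule.span ℝ {e, e0}) ((D₀ : ℝ)⁻¹) h3
      rwa [smul_smul, inv_mul_cancel₀ (by positivity), one_smul] at h4
    have h3 : Submodule.span ℝ {e, e0} = ⊤ := by
      rw [eq_top_iff, ← b.span_eq, Submodule.span_le]
      rintro _ ⟨i, rfl⟩
      exact h2 i
    have h4 : Module.finrank ℝ (Submodule.span ℝ ({e, e0} : Set (V n))) ≤ 2 := by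
      classical
      have h5 := finrank_span_finset_le_card (R := ℝ) ({e, e0} : Finset (V n))
      have h6 : (({e, e0} : Finset (V n)) : Set (V n)) = {e, e0} := by push_cast; rfl
      rw [Set.finrank, h6] at h5
      exact h5.trans Finset.card_le_two
    rw [h3, finrank_top, Module.finrank_fin_fun] at h4
    omega
  -- the scalar
  set l : ℝ := c0⁻¹ with hl
  have hiso : ∀ e, e ∈ Λ → B e e = 0 → S r e ∈ ML Λ l := by
    intro e he hee
    by_cases hene : e = 0
    · rw [hene, map_zero]; exact (ML Λ l).zero_mem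
    obtain ⟨ce, hce, hceΛ⟩ := hS e he hene hee
    obtain ⟨g, hg, hgg, heg, he0g⟩ := third e he hene hee
    have hgne : g ≠ 0 := by rintro rfl; apply heg; simp
    obtain ⟨cg, hcg, hcgΛ⟩ := hS g hg hgne hgg
    obtain ⟨q1, hq1⟩ := prod e he g hg heg ce cg hceΛ hcgΛ
    obtain ⟨q2, hq2⟩ := prod e0 he0Λ g hg he0g c0 cg hc0Λ hcgΛ
    have hq10 : (q1 : ℝ) ≠ 0 := by rw [← hq1]; exact mul_ne_zero hce hcg
    have hq : c0 / ce = ((q2 / q1 : ℚ) : ℝ) := by
      push_cast
      rw [← hq1, ← hq2]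
      field_simp
    set q := q2 / q1 with hqd
    refine ⟨q.den, q.pos, q.num • (ce • S r e), Λ.smul_mem _ hceΛ, ?_⟩
    rw [← Int.cast_smul_eq_zsmul ℝ, smul_smul, smul_smul]
    congr 1
    have h5 : (q : ℝ) = q.num / q.den := by exact_mod_cast (Rat.num_div_den q).symm
    have h6 : (q.den : ℝ) ≠ 0 := by exact_mod_cast q.pos.ne'
    rw [h5] at hq
    rw [hl]
    field_simp at hq ⊢
    linarith
  have hML : ∀ x ∈ Λ, S r x ∈ ML Λ l := by
    intro x hx
    have h1 : ∀ y ∈ AddSubgroup.closure {e : V n | e ∈ Λ ∧ B e e = 0}, S r y ∈ ML Λ l := by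
      intro y hy
      induction hy using AddSubgroup.closure_induction with
      | mem y hy => exact hiso y hy.1 hy.2
      | zero => rw [map_zero]; exact (ML Λ l).zero_mem
      | add y z _ _ h1 h2 => rw [map_add]; exact (ML Λ l).add_mem h1 h2
      | neg y _ h1 => rw [map_neg]; exact (ML Λ l).neg_mem h1
    have h2 := h1 _ (hspn x hx)
    rw [map_smul] at h2
    exact ML_div hD₀ h2
  -- the trace
  have hcoef : ∀ i, ∃ q : ℚ, b.repr (S r (b i)) i = l * q := by
    intro i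
    obtain ⟨D, hD, y, hy, h⟩ := hML (b i) (hbΛ i)
    have h1 : ∃ m : ℤ, b.repr y i = m := by
      have hy' : y ∈ Submodule.span ℤ (Set.range b) := by rw [← hΛ]; exact hy
      have := (b.mem_span_iff_repr_mem ℤ y).mp hy' i
      obtain ⟨m, hm⟩ := this
      exact ⟨m, by rw [← hm]; rfl⟩
    obtain ⟨m, hm⟩ := h1
    refine ⟨(m : ℚ) / D, ?_⟩
    have h2 := congrArg (fun z => b.repr z i) h
    simp only [map_smul, Finsupp.smul_apply, smul_eq_mul, hm] at h2
    have h3 : (D : ℝ) ≠ 0 := by positivity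
    push_cast
    field_simp
    linarith
  choose q hq using hcoef
  have htr := S_sum b hr
  rw [Finset.sum_congr rfl fun i _ => hq i, ← Finset.mul_sum] at htr
  have hn1 : ((n : ℝ) - 1) ≠ 0 := by
    have : (2 : ℝ) ≤ n := by exact_mod_cast hn
    intro h
    linarith
  have hQ : l = ((((n : ℚ) - 1) / ∑ i, q i : ℚ) : ℝ) := by
    have h1 : (∑ i, (q i : ℝ)) ≠ 0 := by
      intro h
      rw [h, mul_zero] at htr
      exact hn1 htr.symm
    push_cast
    rw [eq_div_iff h1]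
    exact htr
  set Q : ℚ := ((n : ℚ) - 1) / ∑ i, q i with hQd
  refine common hΛ (S r).toLinearMap Λ.toAddSubgroup fun i => ?_
  obtain ⟨D, hD, y, hy, h⟩ := hML (b i) (hbΛ i)
  refine ⟨Q.den * D, Nat.mul_pos Q.pos hD, ?_⟩
  have h1 : ((Q.den * D : ℕ) : ℝ) • S r (b i) = Q.num • y := by
    push_cast
    rw [← smul_smul, h, hQ, smul_smul, ← Int.cast_smul_eq_zsmul ℝ]
    congr 1
    have h5 : (Q : ℝ) = Q.num / Q.den := by exact_mod_cast (Rat.num_div_den Q).symm
    have h6 : (Q.den : ℝ) ≠ 0 := by exact_mod_cast Q.pos.ne'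
    rw [h5]
    field_simp
  show ((Q.den * D : ℕ) : ℝ) • S r (b i) ∈ Λ
  rw [h1]
  exact Λ.smul_mem _ hy

end Pool.Agent.CON.H63

end
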